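import Pool.Agent.Lib.MP_df1788_co.Lat

/-! Many representations as a sum of two squares with small conjugates. -/

namespace Pool.Agent.Lib.MP_4d4569_co.HE

open NumberField Pool.Agent.Lib.MP_df1788_co

variable {L : Type} [Field L] [NumberField L] [IsTotallyReal L]

theorem norm_le {x : 𝓞 L} {M : ℝ} (h : ∀ φ : L →+* ℝ, |φ (x : L)| ≤ M) :
    ((Algebra.norm ℤ x).natAbs : ℝ) ≤ M ^ Module.finrank ℚ L := by
  have h1 := InfinitePlace.prod_eq_abs_norm (x : L)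
  have h2 : ((Algebra.norm ℤ x).natAbs : ℝ) = ((|Algebra.norm ℚ (x : L)| : ℚ) : ℝ) := by
    rw [← Algebra.coe_norm_int]
    simp
  rw [h2, ← h1, ← InfinitePlace.sum_mult_eq, ← Finset.prod_pow_eq_pow_sum]
  refine Finset.prod_le_prod (fun w _ => pow_nonneg (apply_nonneg _ _) _) fun w _ => ?_
  refine pow_le_pow_left₀ (apply_nonneg _ _) ?_ _
  rw [← InfinitePlace.norm_embedding_of_isReal (IsTotallyReal.isReal w)]
  exact h _

theorem exists_emb : Nonempty (L →+* ℝ) := by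
  obtain ⟨w⟩ : Nonempty (InfinitePlace L) := inferInstance
  exact ⟨InfinitePlace.embedding_of_isReal (IsTotallyReal.isReal w)⟩

variable {ι : Type} [Fintype ι] [DecidableEq ι] {Q : ι → Ideal (𝓞 L)} {q : ℕ}

omit [IsTotallyReal L] [Fintype ι] [DecidableEq ι] in
theorem mem_prod (hm : ∀ i, (Q i).IsMaximal) (hi : Function.Injective Q) (U : Finset ι)
    {x : 𝓞 L} (hx : ∀ i ∈ U, x ∈ Q i) : x ∈ ∏ i ∈ U, Q i := by
  rw [← Ideal.dvd_span_singleton]
  refine Finset.prod_dvd_of_coprime (fun i _ j _ hij => ?_) fun i h =>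
    Ideal.dvd_span_singleton.2 (hx i h)
  exact Ideal.isCoprime_iff_sup_eq.2 ((hm i).coprime_of_ne (hm j) (hi.ne hij))

omit [IsTotallyReal L] in
theorem mem_of_sq (hm : ∀ i, (Q i).IsMaximal) (hi : Function.Injective Q) (hq0 : q ≠ 0)
    (hq : ∏ i, Q i = Ideal.span {(q : 𝓞 L)}) {a b μ : 𝓞 L} (h : a ^ 2 + b ^ 2 = q * μ) {i : ι}
    (ha : a ∈ Q i) (hb : b ∈ Q i) : μ ∈ Q i := by
  have h1 : Q i * Q i ∣ Ideal.span {(q : 𝓞 L) * μ} := by
    rw [Ideal.dvd_span_singleton, ← h, sq, sq]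
    exact Ideal.add_mem _ (Ideal.mul_mem_mul ha ha) (Ideal.mul_mem_mul hb hb)
  have h0 : Q i ≠ 0 := by
    intro c
    have : ∏ i, Q i = 0 := Finset.prod_eq_zero (Finset.mem_univ i) c
    rw [hq, Ideal.zero_eq_bot, Ideal.span_singleton_eq_bot, Nat.cast_eq_zero] at this
    exact hq0 this
  rw [← Ideal.span_singleton_mul_span_singleton, ← hq,
    ← Finset.mul_prod_erase _ _ (Finset.mem_univ i), mul_assoc, mul_dvd_mul_iff_left h0] at h1
  rw [← Ideal.dvd_span_singleton]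
  refine IsCoprime.dvd_of_dvd_mul_left (IsCoprime.prod_right fun j hj => ?_) h1
  exact Ideal.isCoprime_iff_sup_eq.2
    ((hm i).coprime_of_ne (hm j) (hi.ne (Finset.ne_of_mem_erase hj).symm))

theorem small (hq0 : q ≠ 0) (hq : ∏ i, Q i = Ideal.span {(q : 𝓞 L)}) {ρ R : ℝ} (hρ : 0 < ρ)
    (hd : ρ ^ (2 * Module.finrank ℚ L) = |(discr L : ℝ)|) (hR : 0 < R)
    (hRq : R ^ 2 = 10 * ρ ^ 2 * q) (w : ι → 𝓞 L) :
    ∃ p : 𝓞 L × 𝓞 L, p ≠ 0 ∧ (∀ φ : L →+* ℝ, |φ (p.1 : L)| ≤ R ∧ |φ (p.2 : L)| ≤ R) ∧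
      ∀ i, p.1 + w i * p.2 ∈ Q i := by
  classical
  obtain ⟨c, B, hB, hc⟩ := lat_lower hρ hd hR
  have hN : ∏ i, Ideal.absNorm (Q i) = q ^ Module.finrank ℚ L := by
    rw [← map_prod, hq, Ideal.absNorm_span_natCast, RingOfIntegers.rank]
  have hf : ∀ i, Finite (𝓞 L ⧸ Q i) := fun i => by
    rw [← Ideal.absNorm_ne_zero_iff]
    intro c
    rw [Finset.prod_eq_zero (Finset.mem_univ i) c] at hN
    exact pow_ne_zero _ hq0 hN.symm
  have := fun i => Fintype.ofFinite (𝓞 L ⧸ Q i)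
  have hcard : (Finset.univ : Finset (∀ i, 𝓞 L ⧸ Q i)).card < (B ×ˢ B).card := by
    have e1 : (Finset.univ : Finset (∀ i, 𝓞 L ⧸ Q i)).card = q ^ Module.finrank ℚ L := by
      rw [Finset.card_univ, Fintype.card_pi, ← hN]
      refine Finset.prod_congr rfl fun i _ => ?_
      rw [Ideal.absNorm_apply, Submodule.cardQuot_apply, Nat.card_eq_fintype_card]
    have e2 : (q : ℝ) < (R / (3 * ρ)) ^ 2 := by
      have : (0 : ℝ) < q := by exact_mod_cast Nat.pos_of_ne_zero hq0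
      rw [div_pow, hRq, lt_div_iff₀ (by positivity)]
      nlinarith [mul_pos (pow_pos hρ 2) this]
    have e3 : (q : ℝ) ^ Module.finrank ℚ L < ((R / (3 * ρ)) ^ Module.finrank ℚ L) ^ 2 := by
      rw [← pow_mul, mul_comm (Module.finrank ℚ L), pow_mul]
      exact pow_lt_pow_left₀ e2 (Nat.cast_nonneg _) Module.finrank_pos.ne'
    have e4 := pow_le_pow_left₀ (by positivity) hB 2
    rw [e1, Finset.card_product, ← sq]
    exact_mod_cast e3.trans_le e4
  obtain ⟨x, hx, y, hy, hxy, e⟩ := Finset.exists_ne_map_eq_of_card_lt_of_maps_to hcard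
    (f := fun p i => Ideal.Quotient.mk (Q i) (p.1 + w i * p.2)) fun _ _ => Finset.mem_univ _
  rw [Finset.mem_product] at hx hy
  have hb : ∀ u ∈ B, ∀ v ∈ B, ∀ φ : L →+* ℝ, |φ ((u - v : 𝓞 L) : L)| ≤ R := fun u hu v hv φ => by
    have h1 := hc u hu φ
    have h2 := hc v hv φ
    rw [show ((u - v : 𝓞 L) : L) = u - v from rfl, map_sub, abs_le]
    constructor <;> linarith [h1.1, h1.2, h2.1, h2.2]
  refine ⟨x - y, sub_ne_zero.2 hxy, fun φ => ⟨hb _ hx.1 _ hy.1 φ, hb _ hx.2 _ hy.2 φ⟩, fun i => ?_⟩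
  have := Ideal.Quotient.eq.1 (congrFun e i)
  rw [Prod.fst_sub, Prod.snd_sub]
  convert this using 1
  ring

theorem core (hm : ∀ i, (Q i).IsMaximal) (hi : Function.Injective Q) (hq0 : q ≠ 0)
    (hq : ∏ i, Q i = Ideal.span {(q : 𝓞 L)}) (h2 : ∀ i, (2 : 𝓞 L) ∉ Q i)
    (hs : ∀ i, ∃ s : 𝓞 L, s ^ 2 + 1 ∈ Q i) {e t : ℕ} (he : 0 < e)
    (hN : ∀ i, 2 ^ e ≤ Ideal.absNorm (Q i)) {ρ R : ℝ} (hρ : 0 < ρ)
    (hd : ρ ^ (2 * Module.finrank ℚ L) = |(discr L : ℝ)|) (hR : 0 < R)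
    (hRq : R ^ 2 = 10 * ρ ^ 2 * q) (ht : 20 * ρ ^ 2 ≤ 2 ^ (e * t)) :
    ∃ (ν : 𝓞 L) (A : Finset (𝓞 L × 𝓞 L)), ν ≠ 0 ∧
      (∀ p ∈ A, p.1 ^ 2 + p.2 ^ 2 = ν ∧ ∀ φ : L →+* ℝ, |φ (p.1 : L)| ≤ R ∧ |φ (p.2 : L)| ≤ R) ∧
      (2 : ℝ) ^ Fintype.card ι ≤ (140 * ρ * 2 ^ t) ^ Module.finrank ℚ L * A.card := by
  classical
  choose s hs using hs
  choose g g0 g1 g2 using fun ε : Finset ι =>
    small hq0 hq hρ hd hR hRq fun i => if i ∈ ε then s i else -s i
  have hq' : (0 : ℝ) < q := by exact_mod_cast Nat.pos_of_ne_zero hq0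
  have k1 : ∀ ε, ∃ μ : 𝓞 L, (g ε).1 ^ 2 + (g ε).2 ^ 2 = q * μ := fun ε => by
    have : (g ε).1 ^ 2 + (g ε).2 ^ 2 ∈ ∏ i, Q i := by
      refine mem_prod hm hi _ fun i _ => ?_
      have a := g2 ε i
      obtain ⟨u, hu, hu'⟩ : ∃ u : 𝓞 L, u ^ 2 = s i ^ 2 ∧ (g ε).1 + u * (g ε).2 ∈ Q i :=
        ⟨_, by split_ifs <;> ring, a⟩
      have b := (Q i).add_mem ((Q i).mul_mem_left ((g ε).1 - u * (g ε).2) hu')
        ((Q i).mul_mem_left ((g ε).2 ^ 2) (hs i))
      convert b using 1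
      linear_combination (g ε).2 ^ 2 * hu
    rw [hq, Ideal.mem_span_singleton] at this
    exact this
  choose μ hμ using k1
  have k2 : ∀ ε (φ : L →+* ℝ), 0 < φ (μ ε : L) ∧ φ (μ ε : L) ≤ 20 * ρ ^ 2 := fun ε φ => by
    have a : φ ((g ε).1 : L) ^ 2 + φ ((g ε).2 : L) ^ 2 = q * φ (μ ε : L) := by
      have := congrArg (fun x : 𝓞 L => φ (x : L)) (hμ ε)
      simpa using this
    have b1 := sq_le_sq' (abs_le.1 (g1 ε φ).1).1 (abs_le.1 (g1 ε φ).1).2
    have b2 := sq_le_sq' (abs_le.1 (g1 ε φ).2).1 (abs_le.1 (g1 ε φ).2).2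
    constructor
    · by_contra c
      have c1 : (q : ℝ) * φ (μ ε : L) ≤ 0 := mul_nonpos_of_nonneg_of_nonpos hq'.le (not_lt.1 c)
      have d1 : φ ((g ε).1 : L) = 0 := by
        nlinarith [sq_nonneg (φ ((g ε).1 : L)), sq_nonneg (φ ((g ε).2 : L))]
      have d2 : φ ((g ε).2 : L) = 0 := by
        nlinarith [sq_nonneg (φ ((g ε).1 : L)), sq_nonneg (φ ((g ε).2 : L))]
      refine g0 ε (Prod.ext ?_ ?_)
      · simpa using d1
      · simpa using d2
    · refine le_of_mul_le_mul_left ?_ hq'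
      nlinarith
  obtain ⟨φ0⟩ := exists_emb (L := L)
  have k0 : ∀ ε, μ ε ≠ 0 := fun ε c => by
    have := (k2 ε φ0).1
    rw [c] at this
    simp at this
  have k3 : ((Finset.univ.image μ).card : ℝ) ≤ (140 * ρ) ^ Module.finrank ℚ L := by
    have := lat_upper hρ hd (s := 20 * ρ ^ 2) (by nlinarith) (fun _ => 0) (Finset.univ.image μ)
      fun x hx φ => by
        obtain ⟨ε, -, rfl⟩ := Finset.mem_image.1 hx
        exact ⟨(k2 ε φ).1.le, by simpa using (k2 ε φ).2⟩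
    rwa [show 7 * (20 * ρ ^ 2) / ρ = 140 * ρ by field_simp; norm_num] at this
  have k4 : ∀ p ∈ Finset.univ.image g,
      (Finset.univ.filter fun ε => g ε = p).card ≤ 2 ^ (t * Module.finrank ℚ L) := by
    intro p hp
    obtain ⟨ε, -, rfl⟩ := Finset.mem_image.1 hp
    obtain ⟨U, hU⟩ : ∃ U, U = Finset.univ.filter fun i =>
      (g ε).1 + s i * (g ε).2 ∈ Q i ∧ (g ε).1 + -s i * (g ε).2 ∈ Q i := ⟨_, rfl⟩
    have a1 : (Finset.univ.filter fun η => g η = g ε).card ≤ U.powerset.card := by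
      refine Finset.card_le_card_of_injOn (fun η => η ∩ U)
        (fun η _ => Finset.mem_coe.2 (Finset.mem_powerset.2 Finset.inter_subset_right)) ?_
      have key : ∀ η η', g η = g ε → g η' = g ε → η ∩ U = η' ∩ U → ∀ i ∈ η, i ∈ η' := by
        intro η η' h h' c i hi
        by_contra hi'
        have b1 := g2 η i
        have b2 := g2 η' i
        rw [if_pos hi, h] at b1
        rw [if_neg hi', h'] at b2
        have : i ∈ η ∩ U := Finset.mem_inter.2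
          ⟨hi, hU ▸ Finset.mem_filter.2 ⟨Finset.mem_univ _, b1, b2⟩⟩
        rw [c] at this
        exact hi' (Finset.mem_inter.1 this).1
      intro η h η' h' c
      have h := (Finset.mem_filter.1 (Finset.mem_coe.1 h)).2
      have h' := (Finset.mem_filter.1 (Finset.mem_coe.1 h')).2
      exact Finset.ext fun i => ⟨key η η' h h' c i, key η' η h' h c.symm i⟩
    have a2 : μ ε ∈ ∏ i ∈ U, Q i := by
      refine mem_prod hm hi _ fun i h => ?_
      rw [hU] at h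
      obtain ⟨b1, b2⟩ := (Finset.mem_filter.1 h).2
      have c1 : (g ε).1 ∈ Q i := by
        refine ((hm i).isPrime.mem_or_mem (x := 2) ?_).resolve_left (h2 i)
        convert (Q i).add_mem b1 b2 using 1
        ring
      refine mem_of_sq hm hi hq0 hq (hμ ε) c1 ?_
      convert (Q i).add_mem ((Q i).mul_mem_left (s i) ((Q i).sub_mem c1 b1))
        ((Q i).mul_mem_left (g ε).2 (hs i)) using 1
      ring
    have a3 : (2 ^ e) ^ U.card ≤ (Algebra.norm ℤ (μ ε)).natAbs := by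
      refine (Finset.pow_card_le_prod U _ _ fun i _ => hN i).trans ?_
      rw [← map_prod]
      refine Nat.le_of_dvd (Int.natAbs_pos.2 (Algebra.norm_ne_zero_iff.2 (k0 ε))) ?_
      exact Int.natCast_dvd.1 (Ideal.absNorm_dvd_norm_of_mem a2)
    have a4 : ((Algebra.norm ℤ (μ ε)).natAbs : ℝ) ≤ (2 ^ (e * t)) ^ Module.finrank ℚ L :=
      norm_le fun φ => by
        rw [abs_of_pos (k2 ε φ).1]
        exact (k2 ε φ).2.trans ht
    have a5 : (2 ^ e) ^ U.card ≤ (2 ^ e) ^ (t * Module.finrank ℚ L) := by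
      refine a3.trans ?_
      rw [← pow_mul, ← mul_assoc, pow_mul]
      exact_mod_cast a4
    rw [Finset.card_powerset] at a1
    exact a1.trans (Nat.pow_le_pow_right two_pos
      ((Nat.pow_le_pow_iff_right (Nat.one_lt_two_pow he.ne')).1 a5))
  have k5 := Finset.card_le_mul_card_image Finset.univ _ k4
  obtain ⟨m, hm1, hm2⟩ := Finset.exists_max_image (Finset.univ.image μ)
    (fun m => ((Finset.univ.image g).filter fun p => p.1 ^ 2 + p.2 ^ 2 = q * m).card)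
    (Finset.univ_nonempty.image _)
  have k6 : (Finset.univ.image g).card ≤ (Finset.univ.image μ).card *
      ((Finset.univ.image g).filter fun p => p.1 ^ 2 + p.2 ^ 2 = q * m).card := by
    refine le_trans (Finset.card_le_card fun p hp => ?_)
      (Finset.card_biUnion_le_card_mul _ _ _ hm2)
    obtain ⟨ε, -, rfl⟩ := Finset.mem_image.1 hp
    exact Finset.mem_biUnion.2 ⟨μ ε, Finset.mem_image_of_mem _ (Finset.mem_univ _),
      Finset.mem_filter.2 ⟨hp, hμ ε⟩⟩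
  obtain ⟨ε, -, rfl⟩ := Finset.mem_image.1 hm1
  refine ⟨q * μ ε, (Finset.univ.image g).filter fun p => p.1 ^ 2 + p.2 ^ 2 = q * μ ε,
    mul_ne_zero (Nat.cast_ne_zero.2 hq0) (k0 ε), fun p hp => ?_, ?_⟩
  rotate_left
  · rw [Finset.card_univ, Fintype.card_finset] at k5
    have k7 : ((2 ^ Fintype.card ι : ℕ) : ℝ) ≤ _ :=
      Nat.cast_le.2 (k5.trans (Nat.mul_le_mul_left _ k6))
    push_cast at k7
    refine k7.trans ?_
    rw [mul_pow (140 * ρ), ← pow_mul, mul_comm ((140 * ρ) ^ _), mul_assoc]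
    exact mul_le_mul_of_nonneg_left (mul_le_mul_of_nonneg_right k3 (Nat.cast_nonneg _))
      (by positivity)
  · obtain ⟨a, b⟩ := Finset.mem_filter.1 hp
    obtain ⟨η, -, rfl⟩ := Finset.mem_image.1 a
    exact ⟨b, g1 η⟩

end Pool.Agent.Lib.MP_4d4569_co.HE
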