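import Pool.Agent.Lib.MP_4d4569_co.HE.Core

/-! From representations as sums of two squares to energies on the unit circle. -/

namespace Pool.Agent.Lib.MP_4d4569_co.HE

open NumberField Pool.Agent.Lib.MP_df1788_co

theorem cs {X Y : Type} [DecidableEq Y] (s : Finset X) (f : X → Y) :
    s.card ^ 2 ≤ (s.image f).card * ((s ×ˢ s).filter fun p => f p.1 = f p.2).card := by
  classical
  have h1 : s.card = ∑ y ∈ s.image f, (s.filter fun x => f x = y).card :=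
    Finset.card_eq_sum_card_image f s
  have h2 : ((s ×ˢ s).filter fun p => f p.1 = f p.2).card =
      ∑ y ∈ s.image f, (s.filter fun x => f x = y).card ^ 2 := by
    rw [Finset.card_eq_sum_card_fiberwise (f := fun p => f p.1) (t := s.image f) fun p hp =>
      Finset.mem_coe.2 (Finset.mem_image_of_mem _
        (Finset.mem_product.1 (Finset.mem_filter.1 (Finset.mem_coe.1 hp)).1).1)]
    refine Finset.sum_congr rfl fun y _ => ?_
    rw [sq, ← Finset.card_product]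
    congr 1
    ext p
    simp only [Finset.mem_filter, Finset.mem_product]
    constructor
    · rintro ⟨⟨⟨a, b⟩, c⟩, d⟩
      exact ⟨⟨a, d⟩, b, c ▸ d⟩
    · rintro ⟨⟨a, d⟩, b, c⟩
      exact ⟨⟨⟨a, b⟩, d.trans c.symm⟩, d⟩
  rw [h1, h2]
  exact sq_sum_le_card_mul_sum_sq

/-- the set of solutions counted by the energy -/
theorem energy_ge (A : Finset ℂ) (n : ℕ) {B : ℝ} [DecidableEq ℂ]
    (h : (((Fintype.piFinset fun _ : Fin n => A).image fun a => ∑ i, a i).card : ℝ) ≤ B) :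
    (A.card : ℝ) ^ (2 * n) ≤ B * ({p : (Fin n → ℂ) × (Fin n → ℂ) | (∀ i, p.1 i ∈ A) ∧
      (∀ i, p.2 i ∈ A) ∧ ∑ i, p.1 i = ∑ i, p.2 i}.ncard : ℕ) := by
  have h1 := cs (Fintype.piFinset fun _ : Fin n => A) fun a => ∑ i, a i
  have h2 : {p : (Fin n → ℂ) × (Fin n → ℂ) | (∀ i, p.1 i ∈ A) ∧ (∀ i, p.2 i ∈ A) ∧
      ∑ i, p.1 i = ∑ i, p.2 i} = ((((Fintype.piFinset fun _ : Fin n => A) ×ˢ
        (Fintype.piFinset fun _ : Fin n => A)).filter fun p => ∑ i, p.1 i = ∑ i, p.2 i :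
          Finset _) : Set _) := by
    ext p
    simp [and_assoc]
  rw [h2, Set.ncard_coe_finset]
  rw [Fintype.card_piFinset_const, ← pow_mul, mul_comm n] at h1
  have h3 : ((A.card ^ (2 * n) : ℕ) : ℝ) ≤ _ := Nat.cast_le.2 h1
  push_cast at h3
  exact h3.trans (mul_le_mul_of_nonneg_right h (Nat.cast_nonneg _))

variable {L : Type} [Field L] [NumberField L] [IsTotallyReal L]

theorem circle {ν : 𝓞 L} (hν : ν ≠ 0) (A : Finset (𝓞 L × 𝓞 L)) {ρ R : ℝ} {q : ℕ} (hρ : 0 < ρ)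
    (hd : ρ ^ (2 * Module.finrank ℚ L) = |(discr L : ℝ)|) (hR : 0 < R)
    (hRq : R ^ 2 = 10 * ρ ^ 2 * q) (hq : ρ ^ 2 ≤ q)
    (hA : ∀ p ∈ A, p.1 ^ 2 + p.2 ^ 2 = ν ∧
      ∀ φ : L →+* ℝ, |φ (p.1 : L)| ≤ R ∧ |φ (p.2 : L)| ≤ R) :
    ∃ Z : Finset ℂ, (∀ z ∈ Z, ‖z‖ = 1) ∧ Z.card = A.card ∧ ∀ n : ℕ, 1 ≤ n →
      (Z.card : ℝ) ^ (2 * n) ≤ (1960 * n ^ 2 * q) ^ Module.finrank ℚ L *
        ({p : (Fin n → ℂ) × (Fin n → ℂ) | (∀ i, p.1 i ∈ Z) ∧
          (∀ i, p.2 i ∈ Z) ∧ ∑ i, p.1 i = ∑ i, p.2 i}.ncard : ℕ) := by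
  classical
  obtain ⟨φ⟩ := exists_emb (L := L)
  obtain ⟨r, hr⟩ : ∃ r : ℝ, r = √|φ (ν : L)| := ⟨_, rfl⟩
  have h0 : φ (ν : L) ≠ 0 := by simpa using hν
  have hr0 : 0 < r := hr ▸ Real.sqrt_pos.2 (abs_pos.2 h0)
  let F : 𝓞 L × 𝓞 L →+ ℂ :=
    { toFun := fun p => ⟨φ (p.1 : L) / r, φ (p.2 : L) / r⟩
      map_zero' := by apply Complex.ext <;> simp
      map_add' := fun p p' => by apply Complex.ext <;> simp [add_div] }
  have hF : ∀ p, F p = ⟨φ (p.1 : L) / r, φ (p.2 : L) / r⟩ := fun _ => rfl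
  have hi : Function.Injective F := by
    rw [injective_iff_map_eq_zero]
    intro p hp
    have a := congrArg Complex.re hp
    have b := congrArg Complex.im hp
    rw [hF] at a b
    refine Prod.ext ?_ ?_
    · simpa [hr0.ne'] using a
    · simpa [hr0.ne'] using b
  refine ⟨A.image F, fun z hz => ?_, Finset.card_image_of_injective _ hi, fun n hn => ?_⟩
  · obtain ⟨p, hp, rfl⟩ := Finset.mem_image.1 hz
    have a : φ (p.1 : L) ^ 2 + φ (p.2 : L) ^ 2 = φ (ν : L) := by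
      have := congrArg (fun x : 𝓞 L => φ (x : L)) (hA p hp).1
      simpa using this
    have b : r ^ 2 = φ (ν : L) := by
      rw [hr, Real.sq_sqrt (abs_nonneg _), abs_of_nonneg (by rw [← a]; positivity)]
    rw [← sq_eq_sq₀ (norm_nonneg _) zero_le_one, Complex.sq_norm, hF, Complex.normSq_mk]
    field_simp
    linarith
  refine energy_ge _ n ?_
  have hn' : (1 : ℝ) ≤ n := by exact_mod_cast hn
  obtain ⟨S, hS⟩ : ∃ S, S = (Fintype.piFinset fun _ : Fin n => A).image fun a => ∑ i, a i :=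
    ⟨_, rfl⟩
  have hs : ρ ^ 2 ≤ 2 * n * R := by
    have a : ρ ^ 2 ≤ R := by
      refine abs_le_of_sq_le_sq' ?_ hR.le |>.2
      rw [hRq]
      nlinarith [pow_pos hρ 2]
    nlinarith
  have hb : ∀ π : 𝓞 L × 𝓞 L →+ 𝓞 L, (∀ p ∈ A, ∀ ψ : L →+* ℝ, |ψ (π p : L)| ≤ R) →
      ((S.image π).card : ℝ) ≤ (7 * (2 * n * R) / ρ) ^ Module.finrank ℚ L := fun π hπ => by
    refine lat_upper hρ hd hs (fun _ => -(n * R)) _ fun x hx ψ => ?_
    obtain ⟨y, hy, rfl⟩ := Finset.mem_image.1 hx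
    rw [hS] at hy
    obtain ⟨a, ha, rfl⟩ := Finset.mem_image.1 hy
    have e : ψ (π (∑ i, a i) : L) = ∑ i, ψ (π (a i) : L) := by
      rw [map_sum, ← map_sum ψ]
      exact congrArg ψ (map_sum (algebraMap (𝓞 L) L) _ _)
    have b : |∑ i, ψ (π (a i) : L)| ≤ n * R := by
      refine (Finset.abs_sum_le_sum_abs _ _).trans ?_
      have := Finset.sum_le_card_nsmul Finset.univ _ R fun i _ =>
        hπ _ (Fintype.mem_piFinset.1 ha i) ψ
      simpa using this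
    rw [e]
    constructor <;> linarith [(abs_le.1 b).1, (abs_le.1 b).2]
  have h1 := hb (AddMonoidHom.fst _ _) fun p hp ψ => ((hA p hp).2 ψ).1
  have h2 := hb (AddMonoidHom.snd _ _) fun p hp ψ => ((hA p hp).2 ψ).2
  have h3 : ((Fintype.piFinset fun _ : Fin n => A.image F).image fun a => ∑ i, a i).card ≤
      (S.image (AddMonoidHom.fst _ _)).card * (S.image (AddMonoidHom.snd _ _)).card := by
    rw [← Finset.card_product]
    refine le_trans (Finset.card_le_card fun z hz => ?_) (Finset.card_image_le (f := F))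
    obtain ⟨a, ha, rfl⟩ := Finset.mem_image.1 hz
    choose b hb1 hb2 using fun i => Finset.mem_image.1 (Fintype.mem_piFinset.1 ha i)
    have : ∑ i, b i ∈ S := hS ▸ Finset.mem_image_of_mem _ (Fintype.mem_piFinset.2 hb1)
    refine Finset.mem_image.2 ⟨∑ i, b i, Finset.mem_product.2
      ⟨Finset.mem_image_of_mem _ this, Finset.mem_image_of_mem _ this⟩, ?_⟩
    rw [map_sum]
    exact Finset.sum_congr rfl fun i _ => hb2 i
  have h4 : (_ : ℝ) ≤ _ := Nat.cast_le.2 h3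
  push_cast at h4
  refine h4.trans ((mul_le_mul h1 h2 (Nat.cast_nonneg _) (by positivity)).trans_eq ?_)
  rw [← mul_pow]
  congr 1
  field_simp
  linear_combination 196 * hRq

end Pool.Agent.Lib.MP_4d4569_co.HE
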