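import Pool.Agent.Lib.MP_4d4569_co.HE.Pack

/-! The explicit tower. -/

namespace Pool.Agent.Lib.MP_4d4569_co.HE

open Pool.Agent.Lib.MP_df1788_co Pool.Agent.Lib.MP_df1788_co.BaseAux

theorem pl_ns {l : ℕ} (h : l ∈ pl) : ¬ IsSquare (mm : ZMod l) := by
  obtain ⟨h1, h2, h3⟩ := pl_prime h
  have : Fact l.Prime := ⟨h1⟩
  have h4 : (l - 1) / 2 = l / 2 := by have := h1.eq_two_or_odd; omega
  have h5 : (mm : ZMod l) ^ (l / 2) = -1 := by
    have := (ZMod.natCast_eq_natCast_iff _ _ _).2 h3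
    rwa [Nat.cast_pow, h4, Nat.cast_sub h1.one_le, ZMod.natCast_self, Nat.cast_one,
      zero_sub] at this
  have h6 : (mm : ZMod l) ≠ 0 := fun c => by
    rw [c, zero_pow (by have := h1.two_le; omega)] at h5
    simp at h5
  have : Fact (2 < l) := ⟨lt_of_le_of_ne h1.two_le h2.symm⟩
  rw [ZMod.euler_criterion l h6, h5]
  exact ZMod.neg_one_ne_one

theorem pl_ge : pl.all (fun l => Nat.ble 563 l) = true := by decide +kernel

theorem pl_prod : 2 ^ (2 * 185) ≤ pl.prod ∧ 1960 * pl.prod ≤ 2 ^ 29462 := by decide +kernel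

theorem log_bd {q u n : ℕ} (h0 : 0 < q) (h : 1960 * q ≤ 2 ^ u) (hn : 1 ≤ n) :
    Real.logb 2 (1960 * n ^ 2 * q) ≤ u + 2 * Real.logb 2 n := by
  have h4 : (0 : ℝ) < n := by exact_mod_cast hn
  have h7 : Real.logb 2 (1960 * q) ≤ u := by
    rw [Real.logb_le_iff_le_rpow one_lt_two (by positivity), Real.rpow_natCast]
    exact_mod_cast h
  rw [mul_right_comm, Real.logb_mul (by positivity) (by positivity), Real.logb_pow]
  push_cast
  linarith

theorem partA (N : ℕ) : ∃ Z : Finset ℂ, (∀ z ∈ Z, ‖z‖ = 1) ∧ N ≤ Z.card ∧ ∀ n : ℕ, 1 ≤ n →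
    (Z.card : ℝ) ^ (2 * n - (29462 + 2 * Real.logb 2 n) / 848 : ℝ) ≤
      ({p : (Fin n → ℂ) × (Fin n → ℂ) | (∀ i, p.1 i ∈ Z) ∧
        (∀ i, p.2 i ∈ Z) ∧ ∑ i, p.1 i = ∑ i, p.2 i}.ncard : ℕ) := by
  have hc : pl.toFinset.card = 2123 := by rw [List.toFinset_card_of_nodup pl_nodup, pl_length]
  have hp : ∏ l ∈ pl.toFinset, l = pl.prod := by
    rw [List.prod_toFinset (fun l => l) pl_nodup, List.map_id']
  obtain ⟨Z, h1, h2, h3⟩ := gen (x := xn) (P := pl.toFinset) (e := 18) (t := 21) (s := 185)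
    (g := 848) mm_pos (by simpa using mm_ns)
    (fun i => ⟨Dvd.intro _ (xn_spec i).2.1, (xn_spec i).2.2.1, by
      have a := (xn_spec i).1
      have b := Nat.mul_mod (xn i) mm 8
      rw [mm_mod] at b
      omega⟩)
    (fun s ⟨i, hi⟩ => ⟨by
      rw [← Finset.mul_prod_erase _ _ hi]
      exact not_sq (rl_prime (pn_mem i)).1 (xn_spec i).2.2.2.2.1 (xn_spec i).2.2.2.2.2
        (Nat.Coprime.prod_right fun j hj => xn_cop i j (Finset.ne_of_mem_erase hj)),
      not_sq Nat.prime_five mm_five.1 mm_five.2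
        (Nat.Coprime.prod_right fun j _ => (xn_spec j).2.2.2.1)⟩)
    (fun l hl => ⟨(pl_prime (List.mem_toFinset.1 hl)).1, (pl_prime (List.mem_toFinset.1 hl)).2.1,
      pl_ns (List.mem_toFinset.1 hl)⟩) (by norm_num) (by rw [hc]; norm_num) (by norm_num)
    (by norm_num) (fun l hl => by
      have := Nat.ble_eq ▸ List.all_eq_true.1 pl_ge l (List.mem_toFinset.1 hl)
      exact le_trans (by norm_num) (Nat.pow_le_pow_left this 2)) mm_le (by decide +kernel)
    (hp ▸ pl_prod.1) (by rw [hc]; decide +kernel) N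
  refine ⟨Z, h1, h2, fun n hn => h3 n hn _ ?_⟩
  rw [hp]
  refine (log_bd (lt_of_lt_of_le (Nat.two_pow_pos _) pl_prod.1) pl_prod.2 hn).trans (le_of_eq ?_)
  push_cast
  ring

end Pool.Agent.Lib.MP_4d4569_co.HE
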