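import Pool.Agent.Lib.MP_4d4569_co.HE.InstA
import Pool.Agent.Shared.PNTAP

/-! Towers with a growing number of split primes. -/

namespace Pool.Agent.Lib.MP_4d4569_co.HE

open Filter Pool.Agent.Shared.PNTAP Pool.Agent.Lib.MP_df1788_co.BaseAux

theorem lin {k : ℕ} (hk : 10 ≤ k) : 100 * k ≤ 2 ^ k := by
  induction k, hk using Nat.le_induction with
  | base => norm_num
  | succ k hk ih => rw [pow_succ]; omega

theorem cnt {a : ℕ} (ha : IsUnit (a : ZMod 8)) (h8 : a < 8) : ∀ᶠ k : ℕ in atTop,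
    ∃ S : Finset ℕ, S.card = 2 ^ k + 1 ∧ ∀ p ∈ S, p.Prime ∧ p % 8 = a ∧ p ≤ 2 ^ (2 * k) := by
  have h1 := (theta_ap ha).comp (tendsto_pow_atTop_atTop_of_one_lt (r := (4 : ℝ)) (by norm_num))
  have h2 : ((Nat.totient 8 : ℕ) : ℝ)⁻¹ = 1 / 4 := by
    rw [show Nat.totient 8 = 4 by decide]; norm_num
  rw [h2] at h1
  filter_upwards [h1.eventually (lt_mem_nhds (show (1 / 8 : ℝ) < 1 / 4 by norm_num)),
    eventually_ge_atTop 10] with k hk h10
  have h3 : ⌊(4 : ℝ) ^ k⌋₊ = 2 ^ (2 * k) := by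
    rw [pow_mul, ← Nat.floor_natCast (R := ℝ) ((2 ^ 2) ^ k)]
    norm_num
  simp only [Function.comp, thetaAP, h3] at hk
  generalize hT : (Finset.Icc 1 (2 ^ (2 * k))).filter
    (fun p : ℕ => p.Prime ∧ (p : ZMod 8) = a) = T at hk
  have h4 : ∀ p ∈ T, p.Prime ∧ p % 8 = a ∧ p ≤ 2 ^ (2 * k) := fun p hp => by
    rw [← hT, Finset.mem_filter, Finset.mem_Icc, ZMod.natCast_eq_natCast_iff'] at hp
    exact ⟨hp.2.1, by rw [hp.2.2, Nat.mod_eq_of_lt h8], hp.1.2⟩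
  have h5 : ∑ p ∈ T, Real.log p ≤ T.card * (2 * k) := by
    rw [← nsmul_eq_mul]
    refine Finset.sum_le_card_nsmul _ _ _ fun p hp => ?_
    have a1 : (0 : ℝ) < p := by exact_mod_cast (h4 p hp).1.pos
    have a2 : (p : ℝ) ≤ 2 ^ (2 * k) := by exact_mod_cast (h4 p hp).2.2
    refine (Real.log_le_log a1 a2).trans ?_
    rw [Real.log_pow]
    push_cast
    exact mul_le_of_le_one_right (by positivity) (by linarith [Real.log_two_lt_d9])
  rw [lt_div_iff₀ (by positivity)] at hk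
  have h6 : 4 ^ k ≤ T.card * (16 * k) := by
    have : (4 : ℝ) ^ k ≤ T.card * (16 * k) := by linarith
    exact_mod_cast this
  have h7 : 2 ^ k + 1 ≤ T.card := by
    by_contra c
    have a1 := lin h10
    have a2 : 4 ^ k = 2 ^ k * 2 ^ k := mul_pow 2 2 k
    have a3 : T.card * (16 * k) ≤ 2 ^ k * (16 * k) := Nat.mul_le_mul_right _ (by omega)
    nlinarith
  obtain ⟨S, hS, hS'⟩ := Finset.exists_subset_card_eq h7
  exact ⟨S, hS', fun p hp => h4 p (hS hp)⟩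

theorem half {l X : ℕ} (hl : l.Prime) (h8 : l % 8 = 3) (h3 : l ≠ 3) (hX : ¬ l ∣ X) :
    ¬ IsSquare ((3 * X : ℕ) : ZMod l) ∨ ¬ IsSquare ((6 * X : ℕ) : ZMod l) := by
  have : Fact l.Prime := ⟨hl⟩
  by_contra c
  rw [not_or, not_not, not_not] at c
  have h0 : ((3 * X : ℕ) : ZMod l) ≠ 0 := by
    rw [Ne, ZMod.natCast_eq_zero_iff, hl.dvd_mul, Nat.prime_dvd_prime_iff_eq hl Nat.prime_three]
    tauto
  have h2 : IsSquare (2 : ZMod l) := by
    have := c.2.div c.1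
    rwa [show 6 * X = 2 * (3 * X) by ring, Nat.cast_mul, mul_div_cancel_right₀ _ h0,
      Nat.cast_ofNat] at this
  rw [ZMod.exists_sq_eq_two_iff (by omega)] at h2
  omega

theorem stage : ∀ᶠ k : ℕ in atTop, ∀ N : ℕ, ∃ Z : Finset ℂ, (∀ z ∈ Z, ‖z‖ = 1) ∧ N ≤ Z.card ∧
    ∀ n : ℕ, 1 ≤ n → 11 + 2 * Real.logb 2 n ≤ 2 ^ k → (Z.card : ℝ) ^ (2 * n - (16 * k + 1) : ℝ) ≤
      ({p : (Fin n → ℂ) × (Fin n → ℂ) | (∀ i, p.1 i ∈ Z) ∧
        (∀ i, p.2 i ∈ Z) ∧ ∑ i, p.1 i = ∑ i, p.2 i}.ncard : ℕ) := by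
  classical
  have e2 : Tendsto (fun k : ℕ => 2 * k) atTop atTop :=
    tendsto_id.const_mul_atTop' two_pos
  filter_upwards [cnt (a := 1) (by decide) (by norm_num),
    e2.eventually (cnt (a := 3) (by decide) (by norm_num)), eventually_ge_atTop 10]
    with k ⟨S, hS, hS'⟩ ⟨T, hT, hT'⟩ h10 N
  obtain ⟨S, hSS, hS⟩ := Finset.exists_subset_card_eq (s := S) (n := 2 ^ k) (by omega)
  replace hS' := fun p hp => hS' p (hSS hp)
  have a1 := lin h10
  obtain ⟨u, hu⟩ : 32 ∣ 2 ^ k := pow_dvd_pow 2 (show 5 ≤ k by omega)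
  rw [two_mul k, pow_add, hu] at hT
  rw [hu] at hS a1
  let x : Fin (32 * u) → ℕ := fun i => (Finset.equivFinOfCardEq hS).symm i
  have hx : ∀ i, (x i).Prime ∧ x i % 8 = 1 ∧ x i ≤ 2 ^ (2 * k) := fun i =>
    hS' _ (Subtype.property _)
  have hxi : Function.Injective x :=
    Subtype.val_injective.comp (Finset.equivFinOfCardEq hS).symm.injective
  have hcop : ∀ {p : ℕ}, p.Prime → ∀ s : Finset (Fin (32 * u)), (∀ i ∈ s, p ≠ x i) →
      p.Coprime (∏ i ∈ s, x i) := fun hp s h =>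
    Nat.Coprime.prod_right fun i hi => (Nat.coprime_primes hp (hx i).1).2 (h i hi)
  obtain ⟨X, hX⟩ : ∃ X, X = ∏ i, x i := ⟨_, rfl⟩
  obtain ⟨w, hw, P, hPc, hP⟩ : ∃ w : ℕ, (w = 3 ∨ w = 6) ∧ ∃ P : Finset ℕ, P.card = 128 * u ^ 2 ∧
      ∀ l ∈ P, l ∈ T ∧ ¬ IsSquare ((w * X : ℕ) : ZMod l) := by
    have b1 : T.erase 3 ⊆ T.filter (fun l => ¬ IsSquare ((3 * X : ℕ) : ZMod l)) ∪
        T.filter (fun l => ¬ IsSquare ((6 * X : ℕ) : ZMod l)) := fun l hl => by
      obtain ⟨c1, c2⟩ := Finset.mem_erase.1 hl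
      obtain ⟨c3, c4, -⟩ := hT' l c2
      rw [Finset.mem_union, Finset.mem_filter, Finset.mem_filter, ← and_or_left]
      refine ⟨c2, half c3 c4 c1 ((Nat.Prime.coprime_iff_not_dvd c3).1 ?_)⟩
      exact hX ▸ hcop c3 _ fun i _ e => by have := (hx i).2.1; omega
    have b2 := (Finset.card_le_card b1).trans (Finset.card_union_le _ _)
    have b3 := Finset.pred_card_le_card_erase (s := T) (a := 3)
    have b4 : 32 * u * (32 * u) = 1024 * u ^ 2 := by ring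
    by_cases c : 128 * u ^ 2 ≤ (T.filter fun l => ¬ IsSquare ((3 * X : ℕ) : ZMod l)).card
    · obtain ⟨P, c1, c2⟩ := Finset.exists_subset_card_eq c
      exact ⟨3, .inl rfl, P, c2, fun l hl => Finset.mem_filter.1 (c1 hl)⟩
    · obtain ⟨P, c1, c2⟩ := Finset.exists_subset_card_eq (n := 128 * u ^ 2)
        (s := T.filter fun l => ¬ IsSquare ((6 * X : ℕ) : ZMod l)) (by omega)
      exact ⟨6, .inr rfl, P, c2, fun l hl => Finset.mem_filter.1 (c1 hl)⟩
  have hu1 : 32 ≤ u := by omega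
  have h3 : ∀ s : Finset (Fin (32 * u)), ¬ IsSquare (w * X * ∏ i ∈ s, x i) := fun s => by
    have b : ∀ s : Finset (Fin (32 * u)), Nat.Coprime 3 (∏ i ∈ s, x i) := fun s =>
      hcop Nat.prime_three s fun i _ e => by have := (hx i).2.1; omega
    rw [mul_assoc, hX]
    exact not_sq Nat.prime_three (by omega) (by omega) ((b _).mul_right (b s))
  have hX0 : 0 < X := hX ▸ Finset.prod_pos fun i _ => (hx i).1.pos
  have hXl : X ≤ 2 ^ (2 * k * (32 * u)) := by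
    rw [hX, pow_mul]
    simpa using Finset.prod_le_pow_card Finset.univ x _ fun i _ => (hx i).2.2
  have hq1 : 2 ^ (128 * u ^ 2) ≤ ∏ l ∈ P, l :=
    hPc ▸ Finset.pow_card_le_prod P _ 2 fun l hl => (hT' l (hP l hl).1).1.two_le
  have hq2 : ∏ l ∈ P, l ≤ 2 ^ (2 * (2 * k) * (128 * u ^ 2)) := by
    rw [pow_mul, ← hPc]
    exact Finset.prod_le_pow_card P _ _ fun l hl => (hT' l (hP l hl).1).2.2
  obtain ⟨Z, h1, h2, h4⟩ := gen (x := x) (P := P) (M := w * X) (e := 1)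
    (t := 2 * (k * (32 * u)) + 5) (s := k * (32 * u)) (g := 32 * u ^ 2)
    (Nat.mul_pos (by omega) hX0) (by simpa using h3 ∅)
    (fun i => by
      have b1 : w * X = x i * (w * ∏ j ∈ Finset.univ.erase i, x j) := by
        rw [hX, ← Finset.mul_prod_erase _ _ (Finset.mem_univ i)]; ring
      refine ⟨⟨_, b1⟩, ?_, .inl (hx i).2.1⟩
      rw [b1, Nat.mul_div_cancel_left _ (hx i).1.pos]
      refine Nat.Coprime.mul_right ((Nat.Prime.coprime_iff_not_dvd (hx i).1).2 fun c => ?_)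
        (hcop (hx i).1 _ fun j hj => hxi.ne (Finset.ne_of_mem_erase hj).symm)
      have b2 := Nat.le_of_dvd (by omega) c
      have b3 := (hx i).1.two_le
      have b4 := (hx i).2.1
      omega)
    (fun s ⟨i, hi⟩ => ⟨by
      rw [← Finset.mul_prod_erase _ _ hi]
      refine not_sq (hx i).1 dvd_rfl (fun c => ?_)
        (hcop (hx i).1 _ fun j hj => hxi.ne (Finset.ne_of_mem_erase hj).symm)
      have b2 := Nat.le_of_dvd (hx i).1.pos c
      have b3 := (hx i).1.two_le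
      nlinarith, h3 s⟩)
    (fun l hl => ⟨(hT' l (hP l hl).1).1, by have := (hT' l (hP l hl).1).2.1; omega, (hP l hl).2⟩)
    (by omega) (by rw [hPc]; nlinarith) one_pos (by positivity)
    (fun l hl => by have := (hT' l (hP l hl).1).1.two_le; nlinarith)
    (by
      have b1 : 2 ^ 5 ≤ 2 ^ (2 * k * (32 * u)) := Nat.pow_le_pow_right two_pos (by nlinarith)
      rw [show 4 * (k * (32 * u)) = 2 * k * (32 * u) + 2 * k * (32 * u) by ring, pow_add,
        ← mul_assoc]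
      exact Nat.mul_le_mul (by omega) hXl)
    (by rw [one_mul, pow_add]; omega)
    ((Nat.pow_le_pow_right two_pos (by nlinarith)).trans hq1)
    (by
      rw [hPc]
      refine le_trans (Nat.mul_le_mul_right _ (Nat.pow_le_pow_left (Nat.mul_le_mul_right _
        (Nat.mul_le_mul_right _ (show 140 ≤ 2 ^ 8 by norm_num))) 2)) ?_
      rw [← pow_add, ← pow_add, ← pow_mul, ← pow_add]
      exact Nat.pow_le_pow_right two_pos (by nlinarith)) N
  refine ⟨Z, h1, h2, fun n hn hk => h4 n hn _ ?_⟩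
  have h5 := log_bd (u := 11 + 2 * (2 * k) * (128 * u ^ 2)) (lt_of_lt_of_le (by positivity) hq1)
    (by rw [pow_add]; exact Nat.mul_le_mul (by norm_num) hq2) hn
  have h6 : (2 : ℝ) ^ k ≤ 32 * u ^ 2 := by
    have : 2 ^ k ≤ 32 * u ^ 2 := by rw [hu]; nlinarith
    exact_mod_cast this
  refine h5.trans ?_
  push_cast
  linarith

theorem partB : ∃ C : ℝ, ∀ n : ℕ, 3 ≤ n → ∀ N : ℕ, ∃ Z : Finset ℂ, (∀ z ∈ Z, ‖z‖ = 1) ∧
    N ≤ Z.card ∧ (Z.card : ℝ) ^ (2 * n - C * Real.log (Real.log n) : ℝ) ≤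
      ({p : (Fin n → ℂ) × (Fin n → ℂ) | (∀ i, p.1 i ∈ Z) ∧
        (∀ i, p.2 i ∈ Z) ∧ ∑ i, p.1 i = ∑ i, p.2 i}.ncard : ℕ) := by
  obtain ⟨k₀, h⟩ := eventually_atTop.1 stage
  have l3 : 1 < Real.log 3 := by
    rw [Real.lt_log_iff_exp_lt (by norm_num)]
    linarith [Real.exp_one_lt_d9]
  have c0 := Real.log_pos l3
  refine ⟨(16 * (k₀ + 4) + 17) / Real.log (Real.log 3) + 24, fun n hn N => ?_⟩
  have h1 : Real.log 3 ≤ Real.log n := Real.log_le_log (by norm_num) (by exact_mod_cast hn)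
  have h2 := Real.log_le_log (by linarith) h1
  have l2 := Real.log_two_gt_d9
  have hb : ∀ y : ℝ, 0 ≤ Real.log y → Real.logb 2 y ≤ 3 / 2 * Real.log y := fun y hy => by
    rw [Real.logb, div_le_iff₀ (by linarith)]
    nlinarith
  obtain ⟨c, hc⟩ : ∃ c, c = ⌈Real.logb 2 (Real.log n)⌉₊ := ⟨_, rfl⟩
  have h3 : Real.log n ≤ 2 ^ c := by
    rw [← Real.rpow_natCast, ← Real.logb_le_iff_le_rpow one_lt_two (by linarith), hc]
    exact Nat.le_ceil _
  have h4 : (c : ℝ) ≤ 3 / 2 * Real.log (Real.log n) + 1 := by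
    have := Nat.ceil_lt_add_one (Real.logb_nonneg one_lt_two (l3.le.trans h1))
    have := hb (Real.log n) (by linarith)
    rw [hc]
    linarith
  obtain ⟨Z, a1, a2, a3⟩ := h (k₀ + 4 + c) (by omega) (N + 1)
  refine ⟨Z, a1, by omega, le_trans (Real.rpow_le_rpow_of_exponent_le
    (by exact_mod_cast (by omega : 1 ≤ Z.card)) ?_) (a3 n (by omega) ?_)⟩
  · have b1 : (16 * (k₀ + 4) + 17 : ℝ) ≤
        (16 * (k₀ + 4) + 17) / Real.log (Real.log 3) * Real.log (Real.log n) := by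
      rw [div_mul_eq_mul_div, le_div_iff₀ c0]
      gcongr
    push_cast
    linarith
  · have b1 : (1 : ℝ) ≤ 2 ^ k₀ := one_le_pow₀ one_le_two
    have b2 := hb n (by linarith)
    have b3 : (0 : ℝ) < 2 ^ c := by positivity
    rw [pow_add, pow_add]
    nlinarith

end Pool.Agent.Lib.MP_4d4569_co.HE
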