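import Pool.Agent.Lib.MP_df1788_co.Tower

/-! Towers over a general real quadratic base field. -/

namespace Pool.Agent.Lib.MP_4d4569_co.HE

open NumberField Pool.Agent.Stark Pool.Agent.Lib.MP_df1788_co Pool.Agent.Lib.MP_df1788_co.BaseAux

section
variable {K : Type} [Field K] [NumberField K] {M : ℕ} (E : Quad ℚ K (M : ℚ))

theorem rt_sq : E.rt ^ 2 = (M : K) := by rw [E.sq, map_natCast]

include E in
theorem real (hM : 0 < M) : IsTotallyReal K := by
  refine ⟨fun v => InfinitePlace.isReal_iff.2 (ComplexEmbedding.isReal_iff.2 ?_)⟩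
  generalize v.embedding = φ
  have h1 : φ E.rt ^ 2 = (M : ℂ) := by rw [← map_pow, rt_sq, map_natCast]
  have h2 : (φ E.rt).im = 0 := by
    have a := congrArg Complex.re h1
    have b := congrArg Complex.im h1
    have c : (0 : ℝ) < M := by exact_mod_cast hM
    simp only [sq, Complex.mul_re, Complex.mul_im, Complex.natCast_re, Complex.natCast_im] at a b
    by_contra d
    have e : (φ E.rt).re = 0 := by
      have : (φ E.rt).re * (φ E.rt).im = 0 := by linarith
      exact (mul_eq_zero.1 this).resolve_right d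
    rw [e] at a
    nlinarith [mul_self_nonneg (φ E.rt).im]
  ext1 z
  obtain ⟨g, h, rfl⟩ := E.span z
  rw [ComplexEmbedding.conjugate_coe_eq]
  simp [Complex.conj_eq_iff_im.2 h2]

theorem rt_int : IsIntegral ℤ E.rt := IsIntegral.of_pow two_pos (by
  rw [rt_sq, ← map_natCast (algebraMap ℤ K)]; exact isIntegral_algebraMap)

include E in
theorem discr_le (hM : 0 < M) : (discr K).natAbs ≤ 4 * M := by
  let r : 𝓞 K := ⟨E.rt, rt_int E⟩
  let b := Module.finBasisOfFinrankEq ℤ (𝓞 K) ((RingOfIntegers.rank K).trans E.finrank_eq)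
  have h1 := Algebra.discr_of_matrix_vecMul b (b.toMatrix ![1, r])
  rw [Module.Basis.toMatrix_map_vecMul, discr_eq_discr] at h1
  have t0 : Algebra.trace ℚ K E.rt = 0 := by
    have := Algebra.trace_eq_of_algEquiv E.tau E.rt
    rw [E.tau_rt, map_neg] at this
    linarith
  have t1 : ∀ n : ℕ, Algebra.trace ℚ K (n : K) = 2 * n := by
    intro n
    rw [← map_natCast (algebraMap ℚ K), Algebra.trace_algebraMap, E.finrank_eq]
    simp
  have h2 : Algebra.discr ℤ ![1, r] = 4 * M := by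
    have e1 : Algebra.trace ℤ (𝓞 K) 1 = 2 := by
      have := Algebra.coe_trace_int (1 : 𝓞 K)
      have h := t1 1
      rw [Nat.cast_one] at h
      rw [show ((1 : 𝓞 K) : K) = 1 from rfl, h] at this
      exact_mod_cast this
    have e2 : Algebra.trace ℤ (𝓞 K) r = 0 := by
      have := Algebra.coe_trace_int r
      rw [show (r : K) = E.rt from rfl, t0] at this
      exact_mod_cast this
    have e3 : Algebra.trace ℤ (𝓞 K) (r * r) = 2 * M := by
      have := Algebra.coe_trace_int (r * r)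
      rw [show ((r * r : 𝓞 K) : K) = E.rt * E.rt from rfl, ← sq E.rt, rt_sq, t1] at this
      exact_mod_cast this
    rw [Algebra.discr_def, Matrix.det_fin_two]
    simp only [Algebra.traceMatrix_apply, Algebra.traceForm_apply, Matrix.cons_val_zero,
      Matrix.cons_val_one, mul_one, one_mul, e1, e2, e3]
    ring
  have h3 : discr K ∣ ((4 * M : ℕ) : ℤ) := ⟨_, by push_cast; rw [← h2, h1, mul_comm]⟩
  exact Nat.le_of_dvd (by omega) (Int.natAbs_dvd_natAbs.2 h3)

include E in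
theorem sq_cases {y : ℕ} (h : IsSquare (y : K)) : IsSquare y ∨ IsSquare (M * y) := by
  obtain ⟨z, hz⟩ := h
  obtain ⟨g, h, rfl⟩ := E.span z
  have h1 : algebraMap ℚ K (g ^ 2 + M * h ^ 2 - y) + algebraMap ℚ K (2 * g * h) * E.rt = 0 := by
    simp only [map_sub, map_add, map_mul, map_pow, map_natCast, map_ofNat]
    rw [hz, ← rt_sq E]
    ring
  obtain ⟨h2, h3⟩ := E.indep h1
  rw [← Rat.isSquare_natCast_iff, ← Rat.isSquare_natCast_iff]
  rcases mul_eq_zero.1 h3 with c | c
  · have c' : g = 0 := by simpa using c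
    exact Or.inr ⟨M * h, by push_cast; rw [c'] at h2; linear_combination (-(M : ℚ)) * h2⟩
  · exact Or.inl ⟨g, by rw [c] at h2; linear_combination -h2⟩

theorem cl_prod {d : ℕ} {x : Fin d → ℕ} (hx : ∀ i, 0 < x i) (s : Finset (Fin d)) :
    cl ((∏ i ∈ s, x i : ℕ) : K) = ∑ i ∈ s, cl (x i : K) := by
  induction s using Finset.induction_on with
  | empty => simpa using (cl_eq_zero (one_ne_zero : (1 : K) ≠ 0)).2 ⟨1, by simp⟩
  | insert i s hi ih =>
    rw [Finset.prod_insert hi, Finset.sum_insert hi, Nat.cast_mul, cl_mul, ih]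
    · exact Nat.cast_ne_zero.2 (hx i).ne'
    · exact Nat.cast_ne_zero.2 (Finset.prod_pos fun j _ => hx j).ne'

include E in
theorem indep {d : ℕ} {x : Fin d → ℕ} (hx : ∀ i, 0 < x i)
    (hi : ∀ s : Finset (Fin d), s.Nonempty →
      ¬ IsSquare (∏ i ∈ s, x i) ∧ ¬ IsSquare (M * ∏ i ∈ s, x i)) :
    LinearIndependent (ZMod 2) fun i => cl (x i : K) := by
  rw [Fintype.linearIndependent_iff]
  intro g hg i
  by_contra h
  have h1 : ∑ j ∈ Finset.univ.filter (fun j => g j ≠ 0), cl (x j : K) = 0 := by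
    rw [← hg, Finset.sum_filter]
    refine Finset.sum_congr rfl fun j _ => ?_
    rcases zmod2_cases (g j) with c | c <;> simp [c]
  rw [← cl_prod hx, cl_eq_zero (Nat.cast_ne_zero.2 (Finset.prod_pos fun j _ => hx j).ne')] at h1
  have h2 := hi (Finset.univ.filter fun j => g j ≠ 0) ⟨i, by simpa using h⟩
  exact (sq_cases E h1).elim h2.1 h2.2

end

theorem sq_or {l M y : ℕ} (hl : l.Prime) (hM : ¬ IsSquare (M : ZMod l)) (hy : y ∣ M) :
    ∃ w k : ℕ, w ≠ 0 ∧ (y * w ^ 2 = l * k + 1 ∨ y * M * w ^ 2 = l * k + 1) := by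
  have : Fact l.Prime := ⟨hl⟩
  have h6 : (M : ZMod l) ≠ 0 := fun c => hM (c ▸ IsSquare.zero)
  have h5 : (M : ZMod l) ^ (l / 2) = -1 :=
    (ZMod.pow_div_two_eq_neg_one_or_one l h6).resolve_left fun c =>
      hM ((ZMod.euler_criterion l h6).2 c)
  have h7 : (y : ZMod l) ≠ 0 := by
    intro c
    obtain ⟨z, rfl⟩ := hy
    exact h6 (by rw [Nat.cast_mul, c, zero_mul])
  rcases ZMod.pow_div_two_eq_neg_one_or_one l h7 with c | c
  · obtain ⟨w, k, a, b⟩ := exists_sq c h7
    exact ⟨w, k, a, Or.inl b⟩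
  · obtain ⟨w, k, a, b⟩ := exists_sq (l := l) (z := y * M)
      (by rw [Nat.cast_mul, mul_pow, c, h5]; ring) (by rw [Nat.cast_mul]; exact mul_ne_zero h7 h6)
    exact ⟨w, k, a, Or.inr b⟩

theorem tow {d M : ℕ} {x : Fin d → ℕ} {P : Finset ℕ} (hM : 0 < M) (hns : ¬ IsSquare M)
    (hx : ∀ i, x i ∣ M ∧ (x i).Coprime (M / x i) ∧ (x i % 8 = 1 ∨ x i * M % 8 = 1))
    (hi : ∀ s : Finset (Fin d), s.Nonempty →
      ¬ IsSquare (∏ i ∈ s, x i) ∧ ¬ IsSquare (M * ∏ i ∈ s, x i))
    (hP : ∀ l ∈ P, l.Prime ∧ l ≠ 2 ∧ ¬ IsSquare (M : ZMod l)) (hd : 2 ≤ d)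
    (ht : 4 * (d + (P.card + 4)) ≤ d ^ 2) (j : ℕ) :
    ∃ (L : Type) (_ : Field L) (_ : NumberField L) (_ : IsTotallyReal L) (r : 𝓞 L),
      Module.finrank ℚ L = 2 ^ (j + 1) ∧ (discr L).natAbs ≤ (4 * M) ^ 2 ^ j ∧ r ^ 2 = M ∧
      ∀ l ∈ P, ∃ S : Finset (Ideal (𝓞 L)), S.card = 2 ^ j ∧
        ∀ Q ∈ S, Q.IsMaximal ∧ (l : 𝓞 L) ∈ Q := by
  classical
  obtain ⟨K, _, _, alg, ⟨E⟩⟩ := exists_quad (a := (M : ℚ)) (by rwa [Rat.isSquare_natCast_iff])
  obtain rfl : alg = DivisionRing.toRatAlgebra := Subsingleton.elim _ _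
  have hK := E.finrank_eq
  have hR := real E hM
  have hx0 : ∀ i, 0 < x i := fun i => Nat.pos_of_dvd_of_pos (hx i).1 hM
  have h1 : ∀ l : ℕ, ∃ q : Pr K, 2 ≤ l → (l : 𝓞 K) ∈ q.asIdeal := by
    intro l
    by_cases h : 2 ≤ l
    · exact (exists_above hK h).imp fun q hq _ => hq
    · exact (exists_above hK le_rfl).imp fun q _ c => absurd c h
  choose ql hql using h1
  obtain ⟨T, hT⟩ : ∃ T, T = (dv (2 : K)).support ∪ P.image ql := ⟨_, rfl⟩
  have h3 : T.card ≤ P.card + 2 := by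
    have a := card_two hK
    have b := Finset.card_image_le (s := P) (f := ql)
    have c := Finset.card_union_le (dv (2 : K)).support (P.image ql)
    rw [hT]
    omega
  have h4 : ∀ q ∉ T, og q (2 : K) = 0 := fun q hq =>
    Finsupp.notMem_support_iff.1 fun c => hq (hT ▸ Finset.mem_union_left _ c)
  have := (obs T h4).1
  have hV := le_card_Vs (T := T) (fun i => (x i : K)) (fun i => by
    refine ⟨Nat.cast_ne_zero.2 (hx0 i).ne', fun q _ => ?_, fun q hq => ?_, fun φ => ?_⟩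
    · have a := Nat.mul_div_cancel' (hx i).1
      refine even_og q (hx i).2.1 (hx0 i).ne' (fun c => ?_) (r := E.rt) (by rw [a, rt_sq])
      rw [c, mul_zero] at a
      exact hM.ne a
    · rcases Finset.mem_union.1 (hT ▸ hq) with c | c
      · have c' : og q (2 : K) ≠ 0 := Finsupp.mem_support_iff.1 c
        rcases (hx i).2.2 with b | b
        · refine lsq_two q c' one_ne_zero (k := x i / 8) ?_
          rw [one_pow, mul_one, ← b, Nat.div_add_mod]
        · refine lsq_two q c' E.rt_ne (k := x i * M / 8) ?_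
          rw [rt_sq, ← Nat.cast_mul, ← b, Nat.div_add_mod]
      · obtain ⟨l, hl, rfl⟩ := Finset.mem_image.1 c
        obtain ⟨p1, p2, p3⟩ := hP l hl
        have h4 : l.Coprime 4 :=
          Nat.Coprime.pow_right 2 ((Nat.coprime_primes p1 Nat.prime_two).2 p2)
        obtain ⟨w, k, hw, c | c⟩ := sq_or p1 p3 (hx i).1
        · refine lsq_odd _ h4 (hql l p1.two_le) (Nat.cast_ne_zero.2 hw) (k := k) ?_
          rw [← c]; push_cast; rfl
        · refine lsq_odd _ h4 (hql l p1.two_le) (mul_ne_zero E.rt_ne (Nat.cast_ne_zero.2 hw))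
            (k := k) ?_
          rw [← c, mul_pow, rt_sq]; push_cast; ring
    · rw [map_natCast]; exact_mod_cast hx0 i) (indep E hx0 hi)
  have hp : Fintype.card (InfinitePlace K) ≤ 2 := by
    have := InfinitePlace.card_add_two_mul_card_eq_rank K
    rw [InfinitePlace.card_eq_nrRealPlaces_add_nrComplexPlaces]
    omega
  obtain ⟨L, _, _, _, h⟩ : ∃ (L : Type) (_ : Field L) (_ : NumberField L) (_ : Algebra K L),
      Tow K L T j := by
    induction j with
    | zero =>
      exact ⟨K, _, _, _, inferInstance, Module.finrank_self K, hR,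
        fun Q => eI_split (Algebra.ofId K _) rfl, fun q _ => ⟨Algebra.ofId K _⟩⟩
    | succ j ih =>
      obtain ⟨L, _, _, _, h⟩ := ih
      exact step h h4 hd hV (by omega)
  have := h.gal
  refine ⟨L, inferInstance, inferInstance, h.real, algebraMap (𝓞 K) (𝓞 L) ⟨E.rt, rt_int E⟩,
    ?_, ?_, ?_, fun l hl => ?_⟩
  · rw [← Module.finrank_mul_finrank ℚ K L, hK, h.deg, pow_succ']
  · rw [discr_unr h.unr, h.deg]
    exact Nat.pow_le_pow_left (discr_le E hM) _
  · rw [← map_pow, ← map_natCast (algebraMap (𝓞 K) (𝓞 L))]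
    congr 1
    exact RingOfIntegers.ext (by simpa using rt_sq E)
  · have hq : ql l ∈ T := hT ▸ Finset.mem_union_right _ (Finset.mem_image_of_mem _ hl)
    have hl' := hql l (hP l hl).1.two_le
    obtain ⟨S, hS, hS'⟩ := exists_primes (h.spl _ hq).some
    refine ⟨S.map ⟨_, fun _ _ => IsDedekindDomain.HeightOneSpectrum.ext⟩,
      by rw [Finset.card_map, hS, h.deg], fun Q hQ => ?_⟩
    obtain ⟨Q', hQ', rfl⟩ := Finset.mem_map.1 hQ
    refine ⟨Q'.isMaximal, ?_⟩
    rw [← hS' Q' hQ'] at hl'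
    simpa using (show algebraMap (𝓞 K) (𝓞 L) l ∈ Q'.asIdeal from hl')

end Pool.Agent.Lib.MP_4d4569_co.HE
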