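import Pool.Agent.Lib.MP_4d4569_co.HE.Energy
import Pool.Agent.Lib.MP_4d4569_co.HE.Tow

/-! The primes of the tower fed into the counting lemma. -/

namespace Pool.Agent.Lib.MP_4d4569_co.HE

open NumberField

section
variable {L : Type} [Field L] [NumberField L]

theorem not_both {Q : Ideal (𝓞 L)} (hQ : Q.IsMaximal) {a b : ℕ} (h : a.Coprime b)
    (ha : (a : 𝓞 L) ∈ Q) (hb : (b : 𝓞 L) ∈ Q) : False := by
  obtain ⟨u, v, huv⟩ := h.cast (R := 𝓞 L)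
  exact hQ.ne_top ((Ideal.eq_top_iff_one _).2
    (huv ▸ Q.add_mem (Q.mul_mem_left u ha) (Q.mul_mem_left v hb)))

theorem loc {Q : Ideal (𝓞 L)} (hQ : Q.IsMaximal) {l M : ℕ} (hl : l.Prime)
    (hM : ¬ IsSquare (M : ZMod l)) (hm : (l : 𝓞 L) ∈ Q) {r : 𝓞 L} (hr : r ^ 2 = M) :
    l ^ 2 ≤ Ideal.absNorm Q ∧ ∃ s : 𝓞 L, s ^ 2 + 1 ∈ Q := by
  classical
  have : Fact l.Prime := ⟨hl⟩
  have hQ0 : Q ≠ ⊥ := by
    rintro rfl
    exact hl.ne_zero (by simpa using hm)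
  let _ := Ideal.Quotient.field Q
  have : Finite (𝓞 L ⧸ Q) := Ideal.finiteQuotientOfFreeOfNeBot Q hQ0
  let _ := Fintype.ofFinite (𝓞 L ⧸ Q)
  have hc : CharP (𝓞 L ⧸ Q) l := (CharP.charP_iff_prime_eq_zero hl).2 (by
    rw [← map_natCast (Ideal.Quotient.mk Q)]
    exact Ideal.Quotient.eq_zero_iff_mem.2 hm)
  let f := ZMod.castHom (dvd_refl l) (𝓞 L ⧸ Q)
  have hf : Function.Injective f := f.injective
  have h1 : Ideal.Quotient.mk Q r ^ 2 = f M := by rw [← map_pow, hr, map_natCast, map_natCast]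
  have hM0 : (M : ZMod l) ≠ 0 := fun c => hM (c ▸ IsSquare.zero)
  constructor
  · obtain ⟨n, -, hn⟩ := FiniteField.card (𝓞 L ⧸ Q) l
    rw [Ideal.absNorm_apply, Submodule.cardQuot_apply, Nat.card_eq_fintype_card, hn]
    refine Nat.pow_le_pow_right hl.pos ?_
    by_contra c
    have h2 : (n : ℕ) = 1 := by have := n.pos; omega
    have h3 : Function.Bijective f :=
      (Fintype.bijective_iff_injective_and_card f).2 ⟨hf, by rw [ZMod.card, hn, h2, pow_one]⟩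
    obtain ⟨a, ha⟩ := h3.2 (Ideal.Quotient.mk Q r)
    exact hM ⟨a, hf (by rw [← h1, map_mul, ha, sq])⟩
  · obtain ⟨y, hy⟩ : ∃ y : 𝓞 L ⧸ Q, y ^ 2 + 1 = 0 := by
      by_cases c : IsSquare (-1 : ZMod l)
      · obtain ⟨a, ha⟩ := c
        exact ⟨f a, by rw [sq, ← map_mul, ← ha, map_neg, map_one, neg_add_cancel]⟩
      · have h2 : quadraticChar (ZMod l) (-1 * M) = 1 := by
          rw [map_mul, quadraticChar_neg_one_iff_not_isSquare.2 c,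
            quadraticChar_neg_one_iff_not_isSquare.2 hM]
          norm_num
        obtain ⟨a, ha⟩ := (quadraticChar_one_iff_isSquare (by simpa using hM0)).1 h2
        have h3 : Ideal.Quotient.mk Q r ≠ 0 := fun e =>
          hM0 (hf (by rw [← h1, e, map_zero, zero_pow two_ne_zero]))
        refine ⟨f a / Ideal.Quotient.mk Q r, ?_⟩
        rw [div_pow, sq (f a), ← map_mul, ← ha, map_mul, ← h1, map_neg, map_one,
          mul_div_cancel_right₀ _ (pow_ne_zero 2 h3), neg_add_cancel]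
    obtain ⟨s, rfl⟩ := Ideal.Quotient.mk_surjective y
    exact ⟨s, Ideal.Quotient.eq_zero_iff_mem.1 (by rw [map_add, map_pow, map_one, hy])⟩

theorem ideals {M j : ℕ} {P : Finset ℕ} (hP : ∀ l ∈ P, l.Prime ∧ l ≠ 2 ∧ ¬ IsSquare (M : ZMod l))
    {r : 𝓞 L} (hr : r ^ 2 = M) (hD : Module.finrank ℚ L = 2 ^ (j + 1))
    (hS : ∀ l ∈ P, ∃ S : Finset (Ideal (𝓞 L)), S.card = 2 ^ j ∧
      ∀ Q ∈ S, Q.IsMaximal ∧ (l : 𝓞 L) ∈ Q) :
    ∃ Q : P × Fin (2 ^ j) → Ideal (𝓞 L), (∀ i, (Q i).IsMaximal) ∧ Function.Injective Q ∧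
      ∏ i, Q i = Ideal.span {((∏ l ∈ P, l : ℕ) : 𝓞 L)} ∧ (∀ i, (2 : 𝓞 L) ∉ Q i) ∧
      (∀ i, ∃ s : 𝓞 L, s ^ 2 + 1 ∈ Q i) ∧ ∀ i, (i.1 : ℕ) ^ 2 ≤ Ideal.absNorm (Q i) := by
  classical
  choose S hS hS' using hS
  let Q : P × Fin (2 ^ j) → Ideal (𝓞 L) := fun i =>
    ((Finset.equivFinOfCardEq (hS i.1 i.1.2)).symm i.2 : S i.1 i.1.2)
  have h1 : ∀ i, (Q i).IsMaximal ∧ ((i.1 : ℕ) : 𝓞 L) ∈ Q i := fun i =>
    hS' _ _ _ (Subtype.property _)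
  have h2 := fun i => loc (h1 i).1 (hP _ i.1.2).1 (hP _ i.1.2).2.2 (h1 i).2 hr
  have hi : Function.Injective Q := by
    rintro ⟨a, u⟩ ⟨b, v⟩ h
    obtain rfl : a = b := by
      by_contra c
      exact not_both (h1 (a, u)).1 ((Nat.coprime_primes (hP _ a.2).1 (hP _ b.2).1).2
        fun e => c (Subtype.ext e)) (h1 (a, u)).2 (h ▸ (h1 (b, v)).2)
    exact congrArg (Prod.mk a)
      ((Finset.equivFinOfCardEq (hS a a.2)).symm.injective (Subtype.ext h))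
  refine ⟨Q, fun i => (h1 i).1, hi, ?_, fun i c => ?_, fun i => (h2 i).2, fun i => (h2 i).1⟩
  · have h3 : ((∏ l ∈ P, l : ℕ) : 𝓞 L) ∈ ∏ i, Q i := by
      refine mem_prod (fun i => (h1 i).1) hi _ fun i _ => ?_
      obtain ⟨k, hk⟩ := Finset.dvd_prod_of_mem (fun l : ℕ => l) i.1.2
      rw [hk, Nat.cast_mul]
      exact Ideal.mul_mem_right _ _ (h1 i).2
    obtain ⟨J, hJ⟩ := Ideal.dvd_span_singleton.2 h3
    have h4 := congrArg Ideal.absNorm hJ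
    have h5 : (∏ l ∈ P, l) ^ 2 ^ (j + 1) ≤ Ideal.absNorm (∏ i, Q i) := by
      rw [map_prod]
      refine le_trans (le_of_eq ?_) (Finset.prod_le_prod' fun i _ => (h2 i).1)
      rw [Fintype.prod_prod_type, ← Finset.prod_pow, ← Finset.prod_coe_sort P]
      refine Finset.prod_congr rfl fun l _ => ?_
      simp only [Finset.prod_const, Finset.card_univ, Fintype.card_fin]
      rw [← pow_mul, pow_succ']
    have h6 : 0 < (∏ l ∈ P, l) ^ 2 ^ (j + 1) :=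
      pow_pos (Finset.prod_pos fun l hl => (hP l hl).1.pos) _
    rw [Ideal.absNorm_span_natCast, RingOfIntegers.rank, hD, map_mul] at h4
    have h7 : Ideal.absNorm J = 1 := by
      have h8 : Ideal.absNorm J ≠ 0 := fun e => by rw [e, mul_zero] at h4; omega
      by_contra c
      have h9 : 2 ≤ Ideal.absNorm J := by omega
      nlinarith
    rw [hJ, Ideal.absNorm_eq_one_iff.1 h7, Ideal.mul_top]
  · exact not_both (h1 i).1 ((Nat.coprime_primes Nat.prime_two (hP _ i.1.2).1).2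
      (hP _ i.1.2).2.1.symm) (by exact_mod_cast c) (h1 i).2

end

theorem gen {d M : ℕ} {x : Fin d → ℕ} {P : Finset ℕ} (hM : 0 < M) (hns : ¬ IsSquare M)
    (hx : ∀ i, x i ∣ M ∧ (x i).Coprime (M / x i) ∧ (x i % 8 = 1 ∨ x i * M % 8 = 1))
    (hi : ∀ s : Finset (Fin d), s.Nonempty →
      ¬ IsSquare (∏ i ∈ s, x i) ∧ ¬ IsSquare (M * ∏ i ∈ s, x i))
    (hP : ∀ l ∈ P, l.Prime ∧ l ≠ 2 ∧ ¬ IsSquare (M : ZMod l)) (hd : 2 ≤ d)
    (ht : 4 * (d + (P.card + 4)) ≤ d ^ 2) {e t s g : ℕ} (he : 0 < e) (hg : 0 < g)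
    (hl : ∀ l ∈ P, 2 ^ e ≤ l ^ 2) (hs : 4 * M ≤ 2 ^ (4 * s))
    (het : 20 * 2 ^ (2 * s) ≤ 2 ^ (e * t)) (hq : 2 ^ (2 * s) ≤ ∏ l ∈ P, l)
    (hc : (140 * 2 ^ s * 2 ^ t) ^ 2 * 2 ^ (2 * g) ≤ 2 ^ P.card) (N : ℕ) :
    ∃ Z : Finset ℂ, (∀ z ∈ Z, ‖z‖ = 1) ∧ N ≤ Z.card ∧ ∀ n : ℕ, 1 ≤ n → ∀ k : ℝ,
      Real.logb 2 (1960 * n ^ 2 * (∏ l ∈ P, l : ℕ)) ≤ k * g →
      (Z.card : ℝ) ^ (2 * n - k) ≤ ({p : (Fin n → ℂ) × (Fin n → ℂ) | (∀ i, p.1 i ∈ Z) ∧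
          (∀ i, p.2 i ∈ Z) ∧ ∑ i, p.1 i = ∑ i, p.2 i}.ncard : ℕ) := by
  obtain ⟨L, _, _, _, r, hD, hdi, hr, hS⟩ := tow hM hns hx hi hP hd ht N
  obtain ⟨Q, h1, h2, h3, h4, h5, h6⟩ := ideals hP hr hD hS
  obtain ⟨q, hq'⟩ : ∃ q, q = ∏ l ∈ P, l := ⟨_, rfl⟩
  rw [← hq'] at h3 hq ⊢
  have hq0 : 0 < q := lt_of_lt_of_le (by positivity) hq
  have hD0 : 2 * Module.finrank ℚ L ≠ 0 := by rw [hD]; positivity
  have hd0 : 0 < |(discr L : ℝ)| := abs_pos.2 (Int.cast_ne_zero.2 (discr_ne_zero L))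
  obtain ⟨ρ, hρ, hρd⟩ : ∃ ρ : ℝ, 0 < ρ ∧ ρ ^ (2 * Module.finrank ℚ L) = |(discr L : ℝ)| :=
    ⟨_, Real.rpow_pos_of_pos hd0 _, Real.rpow_inv_natCast_pow hd0.le hD0⟩
  have hρs : ρ ≤ 2 ^ s := by
    refine le_of_pow_le_pow_left₀ hD0 (by positivity) ?_
    have : ((discr L).natAbs : ℝ) ≤ ((2 ^ (4 * s)) ^ 2 ^ N : ℕ) := by
      exact_mod_cast hdi.trans (Nat.pow_le_pow_left hs _)
    rw [hρd, hD]
    refine le_trans (le_of_eq (by simp)) (this.trans (le_of_eq ?_))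
    push_cast
    rw [← pow_mul, ← pow_mul]
    congr 1
    ring
  have hρ2 : ρ ^ 2 ≤ 2 ^ (2 * s) := by rw [mul_comm, pow_mul]; gcongr
  have hR : 0 < √(10 * ρ ^ 2 * q) := by positivity
  have hRq : √(10 * ρ ^ 2 * q) ^ 2 = 10 * ρ ^ 2 * q := Real.sq_sqrt (by positivity)
  obtain ⟨ν, A, hν, hA, hA'⟩ := core h1 h2 hq0.ne' h3 h4 h5 he
    (fun i => (hl _ i.1.2).trans (h6 i)) hρ hρd hR hRq (t := t) (by
      have : ((20 * 2 ^ (2 * s) : ℕ) : ℝ) ≤ (2 ^ (e * t) : ℕ) := by exact_mod_cast het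
      push_cast at this
      linarith)
  obtain ⟨Z, hZ, hZA, hE⟩ := circle hν A hρ hρd hR hRq (hρ2.trans (by exact_mod_cast hq)) hA
  rw [← hZA, Fintype.card_prod, Fintype.card_coe, Fintype.card_fin, hD] at hA'
  rw [hD] at hE
  have h7 : (2 : ℝ) ^ (g * 2 ^ (N + 1)) ≤ Z.card := by
    have h8 : ((140 : ℝ) * 2 ^ s * 2 ^ t) ^ 2 * 2 ^ (2 * g) ≤ 2 ^ P.card := by exact_mod_cast hc
    have h9 : (140 * ρ * 2 ^ t) ^ 2 ^ (N + 1) ≤ ((140 : ℝ) * 2 ^ s * 2 ^ t) ^ 2 ^ (N + 1) := by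
      gcongr
    refine le_of_mul_le_mul_left ?_ (a := ((140 : ℝ) * 2 ^ s * 2 ^ t) ^ 2 ^ (N + 1)) (by positivity)
    refine le_trans ?_ (hA'.trans (by gcongr))
    rw [pow_mul _ P.card]
    refine le_trans (le_of_eq ?_) (pow_le_pow_left₀ (by positivity) h8 _)
    rw [mul_pow (_ ^ 2), ← pow_mul, ← pow_mul, ← pow_succ']
    congr 2
    ring
  have h8 : (0 : ℝ) < Z.card := lt_of_lt_of_le (by positivity) h7
  refine ⟨Z, hZ, ?_, fun n hn k hk => ?_⟩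
  · have h9 : 2 ^ (g * 2 ^ (N + 1)) ≤ Z.card := by exact_mod_cast h7
    have h10 : N + 1 < 2 ^ (N + 1) := Nat.lt_two_pow_self
    have h11 : g * 2 ^ (N + 1) < 2 ^ (g * 2 ^ (N + 1)) := Nat.lt_two_pow_self
    nlinarith
  · have hB : (1 : ℝ) ≤ 1960 * n ^ 2 * q := by
      have : 1 ≤ 1960 * n ^ 2 * q := Nat.succ_le_of_lt (by positivity)
      exact_mod_cast this
    have hk0 : 0 ≤ k := by
      have := Real.logb_nonneg one_lt_two hB
      have : (0 : ℝ) < g := by exact_mod_cast hg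
      by_contra c
      nlinarith
    have h9 : (1960 * n ^ 2 * q : ℝ) ^ 2 ^ (N + 1) ≤ (Z.card : ℝ) ^ k := by
      refine le_trans ?_ (Real.rpow_le_rpow (by positivity) h7 hk0)
      rw [Real.logb_le_iff_le_rpow one_lt_two (by positivity)] at hk
      refine (pow_le_pow_left₀ (by positivity) hk _).trans (le_of_eq ?_)
      rw [← Real.rpow_natCast, ← Real.rpow_natCast, ← Real.rpow_mul zero_le_two,
        ← Real.rpow_mul zero_le_two]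
      congr 1
      push_cast
      ring
    rw [Real.rpow_sub h8, div_le_iff₀ (by positivity), mul_comm _ (_ ^ k)]
    refine le_trans (le_of_eq ?_) ((hE n hn).trans (by gcongr))
    rw [← Real.rpow_natCast]
    push_cast
    rfl

end Pool.Agent.Lib.MP_4d4569_co.HE
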